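import Pool.Agent.Helper2.BI.St
import Pool.Agent.Helper15.AB.M_PQ

set_option autoImplicit false

/-! # Project BI (MP_49e2dd_nt), module L1 (owner helper2) -/

namespace Pool.Agent.Helper95.BI

open Finset
open Pool.Agent.Helper2.BI
open Pool.Agent.Helper15.AB (ee)
open Pool.Agent.Helper15.AB.hPQ (ee_add ee_int ee_pow ee_norm ee_congr geom)

/-- class sums -/
noncomputable def As (B : Finset ℕ) (q : ℕ) (α : ℝ) (a : ℕ) : ℂ :=
  ∑ n ∈ B.filter (fun n => n % q = a), ee (n * α)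

theorem ee_conj (t : ℝ) : (starRingEnd ℂ) (ee t) = ee (-t) := by
  unfold ee
  rw [← Complex.exp_conj]
  congr 1
  simp only [map_mul, Complex.conj_I, Complex.conj_ofReal, map_ofNat]
  push_cast
  ring

theorem orth (q : ℕ) (hq : 1 ≤ q) (S : Finset ℕ) (hS : S ⊆ range q) (A : ℕ → ℂ) :
    ∑ c ∈ range q, ‖∑ a ∈ S, ee (((a : ℤ) : ℝ) / q * c) * A a‖ ^ 2 = q * ∑ a ∈ S, ‖A a‖ ^ 2 := by
  have hq0 : (q : ℝ) ≠ 0 := by
    have : (0 : ℝ) < q := by exact_mod_cast hq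
    exact this.ne'
  have key : ∑ c ∈ range q, ((‖∑ a ∈ S, ee (((a : ℤ) : ℝ) / q * c) * A a‖ ^ 2 : ℝ) : ℂ) =
      ((q * ∑ a ∈ S, ‖A a‖ ^ 2 : ℝ) : ℂ) := by
    have h1 : ∀ c ∈ range q, ((‖∑ a ∈ S, ee (((a : ℤ) : ℝ) / q * c) * A a‖ ^ 2 : ℝ) : ℂ) =
        ∑ a ∈ S, ∑ b ∈ S, A a * (starRingEnd ℂ) (A b) *
          ee ((((a : ℤ) - (b : ℤ) : ℤ) : ℝ) / q) ^ c := by
      intro c _
      rw [Complex.ofReal_pow, ← Complex.mul_conj', map_sum, Finset.sum_mul_sum]
      refine Finset.sum_congr rfl fun a _ => Finset.sum_congr rfl fun b _ => ?_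
      rw [map_mul, ee_conj, ← ee_pow]
      have h2 : (c : ℝ) * ((((a : ℤ) - (b : ℤ) : ℤ) : ℝ) / q) =
          ((a : ℤ) : ℝ) / q * c + (-(((b : ℤ) : ℝ) / q * c)) := by
        push_cast
        ring
      rw [h2, ee_add]
      ring
    have hR : ((q * ∑ a ∈ S, ‖A a‖ ^ 2 : ℝ) : ℂ) = ∑ a ∈ S, (q : ℂ) * (‖A a‖ : ℂ) ^ 2 := by
      push_cast
      rw [Finset.mul_sum]
    rw [hR, Finset.sum_congr rfl h1, Finset.sum_comm]
    refine Finset.sum_congr rfl fun a ha => ?_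
    rw [Finset.sum_comm, Finset.sum_eq_single a]
    · rw [← Finset.mul_sum, geom q hq]
      rw [if_pos (by simp), Complex.mul_conj']
      ring
    · intro b hb hab
      rw [← Finset.mul_sum, geom q hq, if_neg, mul_zero]
      intro hd
      apply hab
      have ha' := Finset.mem_range.1 (hS ha)
      have hb' := Finset.mem_range.1 (hS hb)
      have h3 : ((a : ℤ) - b).natAbs < q := by omega
      have h4 := Int.eq_zero_of_abs_lt_dvd hd (by
        rw [Int.abs_eq_natAbs]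
        exact_mod_cast h3)
      omega
    · intro h
      exact absurd ha h
  exact_mod_cast key

theorem hL1 : L1 := by
  intro B Om q H hq hOm hcard hHq hB α
  have hq1 : 1 ≤ q := hq.one_lt.le
  have hq0 : (0 : ℝ) < q := by exact_mod_cast hq1
  set S := range q \ Om with hS
  have hmaps : ∀ n ∈ B, n % q ∈ S := by
    intro n hn
    rw [hS, Finset.mem_sdiff]
    exact ⟨Finset.mem_range.2 (Nat.mod_lt _ hq1), hB n hn⟩
  have hScard : (S.card : ℝ) = q - H := by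
    have h1 : S.card = q - H := by
      rw [hS, Finset.card_sdiff_of_subset hOm, Finset.card_range, hcard]
    rw [h1, Nat.cast_sub hHq.le]
  have hshift : ∀ c : ℕ, ES B (α + c / q) = ∑ a ∈ S, ee (((a : ℤ) : ℝ) / q * c) * As B q α a := by
    intro c
    unfold ES As
    rw [← Finset.sum_fiberwise_of_maps_to hmaps]
    refine Finset.sum_congr rfl fun a _ => ?_
    rw [Finset.mul_sum]
    refine Finset.sum_congr rfl fun n hn => ?_
    have hna : n % q = a := (Finset.mem_filter.1 hn).2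
    have h1 : (n : ℝ) * (α + c / q) = (((n : ℤ) * (c : ℤ) : ℤ) : ℝ) / q + n * α := by
      push_cast
      ring
    rw [h1, ee_add]
    congr 1
    have h2 : ((a : ℤ) : ℝ) / q * c = (((a : ℤ) * (c : ℤ) : ℤ) : ℝ) / q := by
      push_cast
      ring
    rw [h2]
    refine ee_congr q hq1 _ _ ?_
    have h3 : (n : ℤ) * c - (a : ℤ) * c = ((n : ℤ) - a) * c := by ring
    rw [h3]
    refine Dvd.dvd.mul_right ?_ _
    rw [← hna]
    push_cast
    exact Int.dvd_self_sub_emod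
  have h0 : ES B α = ∑ a ∈ S, As B q α a := by
    have := hshift 0
    simp only [Nat.cast_zero, zero_div, add_zero, mul_zero] at this
    rw [this]
    refine Finset.sum_congr rfl fun a _ => ?_
    have h1 : ee 0 = 1 := by
      have := ee_int 0
      simpa using this
    rw [h1, one_mul]
  set Q := ∑ a ∈ S, ‖As B q α a‖ ^ 2 with hQ
  have hQ0 : 0 ≤ Q := Finset.sum_nonneg fun a _ => by positivity
  have hcs : ‖ES B α‖ ^ 2 ≤ (q - H) * Q := by
    rw [h0]
    calc ‖∑ a ∈ S, As B q α a‖ ^ 2 ≤ (∑ a ∈ S, ‖As B q α a‖) ^ 2 := by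
          gcongr
          exact norm_sum_le _ _
      _ ≤ S.card * ∑ a ∈ S, ‖As B q α a‖ ^ 2 := sq_sum_le_card_mul_sum_sq
      _ = (q - H) * Q := by rw [hScard]
  have hall : ∑ c ∈ range q, ‖ES B (α + c / q)‖ ^ 2 = q * Q := by
    rw [hQ, ← orth q hq1 S (by rw [hS]; exact Finset.sdiff_subset) (As B q α)]
    exact Finset.sum_congr rfl fun c _ => by rw [hshift c]
  have hsplit : ∑ c ∈ range q, ‖ES B (α + c / q)‖ ^ 2 =
      ‖ES B α‖ ^ 2 + ∑ c ∈ Ico 1 q, ‖ES B (α + c / q)‖ ^ 2 := by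
    rw [Finset.range_eq_Ico, Finset.sum_eq_sum_Ico_succ_bot (by omega)]
    simp
  have hsum : ∑ c ∈ Ico 1 q, ‖ES B (α + c / q)‖ ^ 2 = q * Q - ‖ES B α‖ ^ 2 := by
    linarith
  rw [hsum]
  have hH : (H : ℝ) < q := by exact_mod_cast hHq
  have hH0 : (0 : ℝ) ≤ H := Nat.cast_nonneg _
  rw [div_mul_eq_mul_div, div_le_iff₀ hq0]
  have h5 : 0 ≤ ‖ES B α‖ ^ 2 := by positivity
  -- H E ≤ (q Q - E) q  <=  E (H + q) ≤ q^2 Q ; E ≤ (q-H) Q, (q-H)(q+H) ≤ q^2
  nlinarith [mul_le_mul_of_nonneg_right hcs (by linarith : (0 : ℝ) ≤ q + H), mul_nonneg hH0 hH0,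
    mul_nonneg (mul_nonneg hH0 hH0) hQ0]

end Pool.Agent.Helper95.BI
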